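import Mathlib
import Pool.Agent.Q10.LeeRing

/-!
# A weakly left Lee 2-coherent ring which is not left Lee 2-coherent
-/

namespace Pool.Agent.Results.MP_0b9bd1_al.WeaklyLeeNotLee

/-- The left `R`-module `M` has projective dimension at most `n`: it is projective if `n = 0`,
and for `n + 1` there is a surjection from a projective module onto `M` whose kernel has projective
dimension at most `n`. -/
def PdLE (R : Type) [Ring R] : ℕ → ∀ (M : Type) [AddCommGroup M] [Module R M], Prop
  | 0, M, _, _ => Module.Projective R M
  | n + 1, M, _, _ => ∃ (P : Type) (_ : AddCommGroup P) (_ : Module R P) (f : P →ₗ[R] M),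
      Module.Projective R P ∧ Function.Surjective f ∧ PdLE R n (LinearMap.ker f)

/-- `R` is left Lee `n`-coherent (`n ≥ 1`): each finitely generated submodule `K` of some `R ^ m`
with projective dimension at most `n - 1` is finitely presented. -/
def LeeCoherent (R : Type) [Ring R] (n : ℕ) : Prop :=
  ∀ (m : ℕ) (K : Submodule R (Fin m → R)), K.FG → PdLE R (n - 1) K →
    Module.FinitePresentation R K

/-- `R` is weakly left Lee `n`-coherent (`n ≥ 1`): each finitely generated left ideal `I`
with projective dimension at most `n - 1` is finitely presented. -/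
def WeaklyLeeCoherent (R : Type) [Ring R] (n : ℕ) : Prop :=
  ∀ I : Submodule R R, I.FG → PdLE R (n - 1) I → Module.FinitePresentation R I

/-- There is a weakly left Lee `2`-coherent ring which is not left Lee `2`-coherent. -/
theorem result : ∃ (R : Type) (_ : Ring R), WeaklyLeeCoherent R 2 ∧ ¬ LeeCoherent R 2 := by
  refine ⟨Q10.LeeRing.T, inferInstance, ?_, ?_⟩
  · rintro I hI ⟨P, _, _, f, hP, hf, hK⟩
    exact Q10.LeeRing.ideal_fp I hI f hf hP hK
  · intro h
    refine Q10.LeeRing.K_not_fp (h 2 Q10.LeeRing.K Q10.LeeRing.K_fg ?_)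
    exact ⟨Q10.LeeRing.T, inferInstance, inferInstance, Q10.LeeRing.q, inferInstance,
      Q10.LeeRing.q_surjective, Q10.LeeRing.ker_projective⟩

end Pool.Agent.Results.MP_0b9bd1_al.WeaklyLeeNotLee
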